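import Pool.Agent.H7.GT.Stmts

/-!
# Board gt7, row LIA
-/

set_option autoImplicit false

open Finset

namespace Pool.GT7

open Pool.Agent.H23.KT Pool.Agent.H46.KW Pool.KQ

theorem LIA_thm (hLIS : LISStmt) (hSTC : STCStmt) (hLMB : LMBStmt) (hTTR : TTRStmt) : LIAStmt := by
  intro p w r hP
  have hr1 := hP.r1
  have hrw := hP.rw
  have hrp := hP.rp
  have hwp := hP.wp
  obtain ⟨e, he0, he2, hLIS⟩ := hLIS p w r hP
  obtain ⟨K, hK, hLMB⟩ := hLMB p w r hP
  set c₁ : ℝ := ((p + 2).choose (w + 1) : ℝ) with hc₁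
  have hc₁0 : 0 ≤ c₁ := by positivity
  set K' : ℝ := (r : ℝ) * c₁ * 2 ^ (w + 1) with hK'
  have hK'0 : 0 ≤ K' := by positivity
  obtain ⟨C, hC, hSTC⟩ := hSTC p w hwp (((p : ℝ) + 5) * K')
  obtain ⟨a₁, hSTC⟩ := hSTC e he0 he2
  obtain ⟨a₂, hLIS⟩ := hLIS C hC
  refine ⟨max 1 (max a₁ a₂), ?_⟩
  intro a ha V _ G W hCB hW
  have ha1 : 1 ≤ a := (le_max_left _ _).trans ha
  have ha2 : a₁ ≤ a := (le_max_left _ _).trans ((le_max_right _ _).trans ha)
  have ha3 : a₂ ≤ a := (le_max_right _ _).trans ((le_max_right _ _).trans ha)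
  obtain ⟨-, -, hlam, hLm, -, hbal⟩ := hLMB a ha1
  have haR : (1 : ℝ) ≤ a := by exact_mod_cast ha1
  have hrR : (1 : ℝ) ≤ r := by exact_mod_cast hr1
  set B : ℝ := (bal (p + 3) ((p + 3) * a + r) : ℝ) with hB
  have hB0 : 0 ≤ B := by positivity
  -- the bound of `lam * bal`
  have hlb : lam p w r a * B ≤ K' * (a : ℝ) ^ (w + 1) := by
    have h1 : (TT (p + 2) (w + 1) a (r - 1) : ℝ) ≤ c₁ * ((a : ℝ) + 1) ^ (w + 1) := by
      have := (hTTR.2.2.1 (p + 2) (w + 1) a (r - 1) (by omega)).2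
      rw [hc₁]
      exact_mod_cast this
    have h2 : ((a : ℝ) + 1) ^ (w + 1) ≤ (2 * (a : ℝ)) ^ (w + 1) :=
      pow_le_pow_left₀ (by positivity) (by linarith) _
    rw [mul_pow] at h2
    have h3 : (lam p w r a * B) * ((a : ℝ) + 1) ≤
        (K' * (a : ℝ) ^ (w + 1)) * ((a : ℝ) + 1) := by
      have h4 : (lam p w r a * B) * ((a : ℝ) + 1) ≤
          lam p w r a * ((((p : ℝ) + 4) * a + r) * B) := by
        have h5 : (a : ℝ) + 1 ≤ ((p : ℝ) + 4) * a + r := by
          have : (0 : ℝ) ≤ (p : ℝ) * a := by positivity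
          nlinarith
        have h6 : 0 ≤ lam p w r a * B := mul_nonneg hlam.le hB0
        nlinarith [mul_le_mul_of_nonneg_left h5 h6]
      have h7 : (r : ℝ) * ((a : ℝ) + 1) * TT (p + 2) (w + 1) a (r - 1) ≤
          (r : ℝ) * ((a : ℝ) + 1) * (c₁ * (2 ^ (w + 1) * (a : ℝ) ^ (w + 1))) := by
        apply mul_le_mul_of_nonneg_left _ (by positivity)
        exact h1.trans (mul_le_mul_of_nonneg_left h2 hc₁0)
      calc (lam p w r a * B) * ((a : ℝ) + 1)
          ≤ lam p w r a * ((((p : ℝ) + 4) * a + r) * B) := h4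
        _ = (r : ℝ) * ((a : ℝ) + 1) * TT (p + 2) (w + 1) a (r - 1) := hbal
        _ ≤ (r : ℝ) * ((a : ℝ) + 1) * (c₁ * (2 ^ (w + 1) * (a : ℝ) ^ (w + 1))) := h7
        _ = (K' * (a : ℝ) ^ (w + 1)) * ((a : ℝ) + 1) := by rw [hK']; ring
    exact le_of_mul_le_mul_right h3 (by positivity)
  by_cases hcase : (kc G W (w + 2) : ℝ) + ((p : ℝ) + 5) * K' * (a : ℝ) ^ (w + 1) ≤
      (TT (p + 3) (w + 2) a r : ℝ)
  · -- few cliques
    unfold LIN
    have hkc : (kc G W (p + 3) : ℝ) ≤ B := by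
      have h1 := zyk (G := G) (p + 2) W hCB
      have h2 : kc G W (p + 3) ≤ bal (p + 3) ((p + 3) * a + r) :=
        h1.trans (bal_mono (by omega) hW)
      rw [hB]
      exact_mod_cast h2
    have hsum : ∑ L ∈ clq G W (p + 3), min (r : ℝ) (XX G p r a W L) ≤ (r : ℝ) * B := by
      calc ∑ L ∈ clq G W (p + 3), min (r : ℝ) (XX G p r a W L)
          ≤ ∑ L ∈ clq G W (p + 3), (r : ℝ) := Finset.sum_le_sum (fun L _ => min_le_left _ _)
        _ = (r : ℝ) * (kc G W (p + 3) : ℝ) := by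
            rw [Finset.sum_const, nsmul_eq_mul, kc_eq]
            ring
        _ ≤ (r : ℝ) * B := mul_le_mul_of_nonneg_left hkc (by positivity)
    have hLr : Lm p w r a * ((r : ℝ) * B) = ((p : ℝ) + 4) * (lam p w r a * B) := by
      unfold Lm
      have : (r : ℝ) ≠ 0 := by linarith
      field_simp
    have h1 : lam p w r a * (B - kc G W (p + 3)) ≤ lam p w r a * B := by
      apply mul_le_mul_of_nonneg_left _ hlam.le
      have : (0 : ℝ) ≤ (kc G W (p + 3) : ℝ) := by positivity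
      linarith
    have h2 := mul_le_mul_of_nonneg_left hsum hLm.le
    rw [hLr] at h2
    have h3 : ((p : ℝ) + 5) * (lam p w r a * B) ≤ ((p : ℝ) + 5) * (K' * (a : ℝ) ^ (w + 1)) :=
      mul_le_mul_of_nonneg_left hlb (by positivity)
    linarith
  · -- the structure
    push Not at hcase
    have h1 : ((p + 3).choose (w + 2) : ℝ) * (a : ℝ) ^ (w + 2) ≤ (TT (p + 3) (w + 2) a r : ℝ) := by
      have := (hTTR.2.2.1 (p + 3) (w + 2) a r (by omega)).1
      exact_mod_cast this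
    have hW' : W.card ≤ (p + 3) * (a + 1) := by
      calc W.card ≤ (p + 3) * a + r := hW
        _ ≤ (p + 3) * (a + 1) := by
          rw [mul_add, mul_one]
          omega
    obtain ⟨P, U, hStr⟩ := hSTC a ha2 G W hCB hW' (by linarith)
    exact hLIS a ha3 G W P U hStr hCB hW

end Pool.GT7
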